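import Mathlib

set_option autoImplicit false

open Filter Topology

/-!
# Acylindrically hyperbolic groups and supermultiplicative functions: definitions

Used for MP_8622f1_pr (Ising), MP_8ee43e_pr (p_c < p_u) and MP_23451d_pr (p_c < p_{q->q}).
-/

namespace AHP

/-! ### Hyperbolic spaces and acylindrical actions -/

section Space

variable {X : Type} [MetricSpace X]

/-- Gromov product of `x` and `y` with base point `w`. -/
noncomputable def gp (w x y : X) : ℝ := (dist w x + dist w y - dist x y) / 2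

/-- Gromov hyperbolicity (four point condition) with constant `δ`. -/
def Hyp (X : Type) [MetricSpace X] (δ : ℝ) : Prop :=
  ∀ w x y z : X, min (gp w x y) (gp w y z) ≤ gp w x z + δ

/-- Existence of intermediate points (true in every geodesic space). -/
def Inter (X : Type) [MetricSpace X] : Prop :=
  ∀ x y : X, ∀ t : ℝ, 0 ≤ t → t ≤ dist x y → ∃ z : X, dist x z = t ∧ dist z y = dist x y - t

/-- The action of `Γ` on `X` is acylindrical: for every `ε` there are `R` and `N` such that for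
all `x`, `y` at distance at least `R` at most `N` elements move both `x` and `y` by at most `ε`. -/
def Acyl (Γ X : Type) [Group Γ] [MetricSpace X] [MulAction Γ X] : Prop :=
  ∀ ε : ℝ, ∃ (R : ℝ) (N : ℕ), ∀ x y : X, R ≤ dist x y →
    {g : Γ | dist x (g • x) ≤ ε ∧ dist y (g • y) ≤ ε}.encard ≤ (N : ℕ∞)

/-- `f` acts as a loxodromic isometry: its powers move a point linearly. -/
def Lox {Γ : Type} (X : Type) [Group Γ] [MetricSpace X] [MulAction Γ X] (f : Γ) : Prop :=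
  ∃ x : X, ∃ c : ℝ, 0 < c ∧ ∀ n : ℕ, c * n ≤ dist x (f ^ n • x)

/-- `f` and `g` have disjoint limit sets: the Gromov products of the powers are bounded. -/
def Indep {Γ : Type} (X : Type) [Group Γ] [MetricSpace X] [MulAction Γ X] (f g : Γ) : Prop :=
  ∃ x : X, ∃ C : ℝ, ∀ m n : ℤ, gp x (f ^ m • x) (g ^ n • x) ≤ C

/-- `Γ` is acylindrically hyperbolic: it acts acylindrically by isometries on a hyperbolic space
with intermediate points (e.g. a geodesic space), with two independent loxodromic elements. -/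
def AcylHyp (Γ : Type) [Group Γ] : Prop :=
  ∃ (X : Type) (_ : MetricSpace X) (_ : MulAction Γ X),
    (∀ (g : Γ) (x y : X), dist (g • x) (g • y) = dist x y) ∧
    (∃ δ : ℝ, Hyp X δ) ∧ Inter X ∧ Acyl Γ X ∧
    ∃ f g : Γ, Lox X f ∧ Lox X g ∧ Indep X f g

end Space

/-! ### The geometric output: a length function on the group -/

section Length

variable {Γ : Type} [Group Γ]

/-- Gromov product of `g` and `h` with respect to the length function `ℓ`. -/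
noncomputable def pr (ℓ : Γ → ℝ) (g h : Γ) : ℝ := (ℓ g + ℓ h - ℓ (g⁻¹ * h)) / 2

/-- Everything which the coding part uses about `ℓ g = d(o, g o)`.
`F`: connectors; `M`: number of connectors at a given place. -/
structure Len (ℓ : Γ → ℝ) (δ C : ℝ) (F : Finset Γ) (M : ℕ) : Prop where
  one : ℓ 1 = 0
  inv : ∀ g, ℓ g⁻¹ = ℓ g
  mul : ∀ g h, ℓ (g * h) ≤ ℓ g + ℓ h
  nonneg : ∀ g, 0 ≤ ℓ g
  delta : 0 ≤ δ
  const : 0 ≤ C
  hyp : ∀ g h k, min (pr ℓ g h) (pr ℓ h k) ≤ pr ℓ g k + δ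
  /-- extension lemma -/
  ext : ∀ a b, ∃ n ∈ F, ℓ a + ℓ n + ℓ b ≤ ℓ (a * n * b) + C
  /-- counting -/
  cnt : ∀ (g : Γ) (t : ℝ), {p : Γ × Γ | p.2 ∈ F ∧ t ≤ ℓ p.1 ∧ ℓ p.1 ≤ t + 1 ∧
    ℓ p.1 + ℓ p.2 + ℓ ((p.1 * p.2)⁻¹ * g) ≤ ℓ g + C}.encard ≤ (M : ℕ∞)
  /-- period breaking markers -/
  per : ∀ c E : ℝ, 0 ≤ c → 0 ≤ E → ∃ (Q : Finset Γ) (W k : ℝ), 0 ≤ W ∧ ∀ h, k ≤ ℓ h →
    ∃ m ∈ Q,
      (∀ a, ℓ h + ℓ (h⁻¹ * a) ≤ ℓ a + c → ℓ m + ℓ h + ℓ (h⁻¹ * a) ≤ ℓ (m * a) + c + C) ∧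
      (∀ z z' G, ℓ z ≤ ℓ z' → ℓ z' ≤ ℓ z + ℓ h / 3 →
        ℓ (z * m⁻¹) + ℓ m + ℓ h + ℓ ((z * h)⁻¹ * G) ≤ ℓ G + E →
        ℓ (z' * m⁻¹) + ℓ m + ℓ h + ℓ ((z' * h)⁻¹ * G) ≤ ℓ G + E →
        ℓ z' ≤ ℓ z + W)

end Length

/-! ### The analytic input -/

section Analytic

variable {Γ : Type} [Group Γ]

open Classical in
/-- Two point functions `Tn n` below the critical point, increasing to `T`. -/
structure Crit (A : Finset Γ) (Tn : ℕ → Γ → ℝ) (T : Γ → ℝ) (c : ℝ) : Prop where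
  pos : ∀ n g, 0 < Tn n g
  mul : ∀ n g h, Tn n g * Tn n h ≤ Tn n (g * h)
  inv : ∀ n g, Tn n g⁻¹ = Tn n g
  sum : ∀ n, Summable (Tn n)
  mono : ∀ g, Monotone fun n => Tn n g
  lim : ∀ g, Tendsto (fun n => Tn n g) atTop (𝓝 (T g))
  cpos : 0 < c
  cut : ∀ S : Finset Γ, (1 : Γ) ∈ S →
    c ≤ ∑ x ∈ S, ∑ a ∈ A with x * a ∉ S, T x

/-- The kernel of the Simon-Lieb inequality: `∑ T u` over the pairs `u ∈ S`, `a ∈ A` with
`u * a = v ∉ S`. -/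
noncomputable def kap (A S : Finset Γ) (T : Γ → ℝ) (v : Γ) : ℝ :=
  open Classical in if v ∈ S then 0 else ∑ a ∈ A with v * a⁻¹ ∈ S, T (v * a⁻¹)

/-- The operator with the nonnegative kernel `K` has norm at most `B ^ (1 / q)` on `ℓ^q`. -/
def OB {V : Type} (q : ℝ) (K : V → V → ℝ) (B : ℝ) : Prop :=
  ∀ (U W : Finset V) (v : V → ℝ), (∀ x, 0 ≤ v x) →
    ∑ x ∈ U, (∑ y ∈ W, K x y * v y) ^ q ≤ B * ∑ y ∈ W, v y ^ q

/-- `T` restricted to the set `D`, as a convolution kernel. -/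
noncomputable def res (T : Γ → ℝ) (D : Set Γ) (x y : Γ) : ℝ :=
  open Classical in if x⁻¹ * y ∈ D then T (x⁻¹ * y) else 0

open Classical in
/-- A family of finite volume two point functions `τ p Λ x y` (`p ∈ [0,1]`, `Λ` a finite set of
vertices, `x y` vertices; zero if `x` or `y` is not in `Λ`) on the Cayley graph with the edges
`x -- x * a`, `a ∈ A`. Percolation: `τ p Λ x y` is the probability that `x` and `y` are connected
inside `Λ`, `t p = p`. Ising: `τ p Λ x y = ⟨σ_x σ_y⟩` in `Λ` with free boundary condition,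
`p = 1 - exp (-2β)`, `t p = p / (2 - p) = tanh β`. -/
structure Fam (A : Finset Γ) (t : ℝ → ℝ) (τ : ℝ → Finset Γ → Γ → Γ → ℝ) : Prop where
  Asymm : ∀ a ∈ A, a⁻¹ ∈ A
  Aone : (1 : Γ) ∉ A
  Agen : Subgroup.closure (A : Set Γ) = ⊤
  t_zero : t 0 = 0
  t_one : t 1 = 1
  t_cont : ContinuousOn t (Set.Icc 0 1)
  t_mono : MonotoneOn t (Set.Icc 0 1)
  t_pos : ∀ p, 0 < p → p ≤ 1 → 0 < t p
  cont : ∀ Λ x y, ContinuousOn (fun p => τ p Λ x y) (Set.Icc 0 1)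
  nonneg : ∀ p ∈ Set.Icc (0 : ℝ) 1, ∀ Λ x y, 0 ≤ τ p Λ x y
  le_one : ∀ p ∈ Set.Icc (0 : ℝ) 1, ∀ Λ x y, τ p Λ x y ≤ 1
  self : ∀ p ∈ Set.Icc (0 : ℝ) 1, ∀ Λ, ∀ x ∈ Λ, τ p Λ x x = 1
  out : ∀ p ∈ Set.Icc (0 : ℝ) 1, ∀ Λ x y, x ∉ Λ ∨ y ∉ Λ → τ p Λ x y = 0
  symm : ∀ p ∈ Set.Icc (0 : ℝ) 1, ∀ Λ x y, τ p Λ x y = τ p Λ y x
  inv : ∀ p ∈ Set.Icc (0 : ℝ) 1, ∀ Λ x y g,
    τ p (Λ.map (Equiv.mulLeft g).toEmbedding) (g * x) (g * y) = τ p Λ x y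
  mono : ∀ p ∈ Set.Icc (0 : ℝ) 1, ∀ p' ∈ Set.Icc (0 : ℝ) 1, p ≤ p' → ∀ Λ Λ', Λ ⊆ Λ' →
    ∀ x y, τ p Λ x y ≤ τ p' Λ' x y
  mul : ∀ p ∈ Set.Icc (0 : ℝ) 1, ∀ Λ x y z, τ p Λ x y * τ p Λ y z ≤ τ p Λ x z
  edge : ∀ p ∈ Set.Icc (0 : ℝ) 1, ∀ Λ, ∀ x ∈ Λ, ∀ a ∈ A, x * a ∈ Λ → t p ≤ τ p Λ x (x * a)
  /-- Simon-Lieb inequality -/
  sl : ∀ p ∈ Set.Icc (0 : ℝ) 1, ∀ S Λ, S ⊆ Λ → ∀ x ∈ S, ∀ z ∈ Λ, z ∉ S →
    τ p Λ x z ≤ ∑ u ∈ S, ∑ a ∈ A with u * a ∉ S, t p * τ p S x u * τ p Λ (u * a) z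

open Classical in
/-- The expected number of points at which `S` is left: `φ_p(S)`. -/
noncomputable def phi (A : Finset Γ) (t : ℝ → ℝ) (τ : ℝ → Finset Γ → Γ → Γ → ℝ) (p : ℝ)
    (S : Finset Γ) : ℝ :=
  ∑ u ∈ S, ∑ a ∈ A with u * a ∉ S, t p * τ p S 1 u

end Analytic

end AHP
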