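import Pool.Agent.Lib.AHP.Spec

set_option autoImplicit false

open Filter Topology

/-!
# FAM: the main theorem on families of two point functions (from GEO, CRI, COD, LT1, ITE)
-/

namespace AHP

namespace FamM

/-- An acylindrically hyperbolic group is infinite. -/
theorem infinite_of_acylHyp {Γ : Type} [Group Γ] (h : AcylHyp Γ) : Infinite Γ := by
  obtain ⟨X, _, _, _, _, _, _, f, _, hf, _, _⟩ := h
  obtain ⟨x, c, hc, hn⟩ := hf
  by_contra hfin
  rw [not_infinite_iff_finite] at hfin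
  have h1 := hn (orderOf f)
  rw [pow_orderOf_eq_one, one_smul, dist_self] at h1
  have h2 : 0 < orderOf f := orderOf_pos f
  have h3 : (0 : ℝ) < orderOf f := by exact_mod_cast h2
  have h4 : 0 < c * orderOf f := mul_pos hc h3
  linarith

end FamM

theorem specFAM (hGEO : SpecGEO) (hCRI : SpecCRI) (hCOD : SpecCOD) (hLT1 : SpecLT1)
    (hITE : SpecITE) : SpecFAM := by
  intro Γ _ A t τ hA hF
  have : Infinite Γ := FamM.infinite_of_acylHyp hA
  obtain ⟨ℓ, δ, C, F, M, hL⟩ := hGEO Γ hA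
  obtain ⟨pc, h0, h1, hlow, hhigh, Tn, T, hC, hT, hone⟩ := hCRI Γ A t τ hF
  have hlt : pc < 1 := by
    refine lt_of_le_of_ne h1 fun h => ?_
    obtain ⟨g, hg⟩ := hLT1 Γ ℓ δ C F M hL A Tn T 1 hC
    rw [hone h g] at hg
    exact lt_irrefl _ hg
  refine ⟨pc, h0, hlt, hlow, hhigh, fun q hq => ?_⟩
  exact hITE Γ A t τ hF pc T h0 hlt hT q hq fun ε hε =>
    hCOD Γ ℓ δ C F M hL A Tn T 1 hC q ε hq hε

end AHP
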