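import Pool.Agent.Lib.AHP.Defs

set_option autoImplicit false

open Filter Topology

/-!
Exact statements of the modules (geometry, coding, analysis). Proofs of every module:
`/team-store/AHP_PROOF.md`.

Module NAME: file `Pool/Agent/Lib/AHP/<Name>.lean`, `theorem specNAME (h : SpecOther) ... : SpecNAME`
in namespace `AHP`, own lemmas in namespace `AHP.NameM`.
-/

namespace AHP

/-! ### Geometry -/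

/-- FEL: two points almost between `o` and `G`. -/
def SpecFEL : Prop :=
  ∀ (X : Type) [MetricSpace X] (δ : ℝ), Hyp X δ → ∀ (o G p q : X) (e : ℝ),
    dist o p + dist p G ≤ dist o G + e → dist o q + dist q G ≤ dist o G + e →
    dist p q ≤ |dist o p - dist o q| + e + 2 * δ

/-- FELL: the same for a length function. -/
def SpecFELL : Prop :=
  ∀ (Γ : Type) [Group Γ] (ℓ : Γ → ℝ) (δ C : ℝ) (F : Finset Γ) (M : ℕ), Len ℓ δ C F M →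
    ∀ (G p q : Γ) (e : ℝ), ℓ p + ℓ (p⁻¹ * G) ≤ ℓ G + e → ℓ q + ℓ (q⁻¹ * G) ≤ ℓ G + e →
      ℓ (p⁻¹ * q) ≤ |ℓ p - ℓ q| + e + 2 * δ

/-- EXTF: connectors. -/
def SpecEXTF : Prop :=
  ∀ (Γ X : Type) [Group Γ] [MetricSpace X] [MulAction Γ X] (δ C₀ : ℝ) (o : X) (f g : Γ),
    (∀ (γ : Γ) (x y : X), dist (γ • x) (γ • y) = dist x y) → 0 ≤ δ → Hyp X δ → 0 ≤ C₀ →
    (∀ m n : ℤ, gp o (f ^ m • o) (g ^ n • o) ≤ C₀) →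
    Tendsto (fun n : ℕ => dist o (f ^ n • o)) atTop atTop →
    Tendsto (fun n : ℕ => dist o (g ^ n • o)) atTop atTop →
    ∀ R : ℝ, ∃ F : Finset Γ, (∀ n ∈ F, R ≤ dist o (n • o)) ∧
      ∀ a b : Γ, ∃ n ∈ F, dist o (a • o) + dist o (n • o) + dist o (b • o) ≤
        dist o ((a * n * b) • o) + (4 * C₀ + 14 * δ)

/-- SEPM: two families of markers, with different terminal directions, separated in each family. -/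
def SpecSEPM : Prop :=
  ∀ (Γ X : Type) [Group Γ] [MetricSpace X] [MulAction Γ X] (δ C₀ : ℝ) (o : X) (f g : Γ),
    (∀ (γ : Γ) (x y : X), dist (γ • x) (γ • y) = dist x y) → 0 ≤ δ → Hyp X δ → 0 ≤ C₀ →
    (∀ m n : ℤ, gp o (f ^ m • o) (g ^ n • o) ≤ C₀) →
    Tendsto (fun n : ℕ => dist o (f ^ n • o)) atTop atTop →
    Tendsto (fun n : ℕ => dist o (g ^ n • o)) atTop atTop →
    ∀ (E : ℝ) (N : ℕ), ∃ m : Fin 2 → Fin N → Γ,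
      (∀ i j, gp o ((m 0 i)⁻¹ • o) ((m 1 j)⁻¹ • o) ≤ C₀ + 2 * δ) ∧
      ∀ k i j, i ≠ j → gp o ((m k i)⁻¹ • o) ((m k j)⁻¹ • o) + E < dist o (m k i • o)

/-- CNT: counting connectors at a given place. -/
def SpecCNT : Prop :=
  ∀ (Γ X : Type) [Group Γ] [MetricSpace X] [MulAction Γ X] (δ : ℝ) (o : X),
    (∀ (γ : Γ) (x y : X), dist (γ • x) (γ • y) = dist x y) → Hyp X δ → Acyl Γ X →
    ∀ C : ℝ, ∃ (R : ℝ) (N : ℕ), ∀ F : Finset Γ, (∀ n ∈ F, R ≤ dist o (n • o)) →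
      ∀ (g : Γ) (t : ℝ), {p : Γ × Γ | p.2 ∈ F ∧ t ≤ dist o (p.1 • o) ∧ dist o (p.1 • o) ≤ t + 1 ∧
        dist o (p.1 • o) + dist o (p.2 • o) + dist o (((p.1 * p.2)⁻¹ * g) • o) ≤
          dist o (g • o) + C}.encard ≤ ((F.card * N : ℕ) : ℕ∞)

/-- PERN: among `N + 1` separated markers one breaks all periods of `h`. -/
def SpecPERN : Prop :=
  ∀ (Γ X : Type) [Group Γ] [MetricSpace X] [MulAction Γ X] (δ : ℝ) (o : X),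
    (∀ (γ : Γ) (x y : X), dist (γ • x) (γ • y) = dist x y) → 0 ≤ δ → Hyp X δ → Inter X →
    Acyl Γ X → ∀ E : ℝ, 0 ≤ E → ∃ (N : ℕ) (E' : ℝ), ∀ m : Fin (N + 1) → Γ,
      (∀ i j, i ≠ j → gp o ((m i)⁻¹ • o) ((m j)⁻¹ • o) + E' < dist o (m i • o)) →
      ∃ W k : ℝ, 0 ≤ W ∧ ∀ h : Γ, k ≤ dist o (h • o) → ∃ i, ∀ z z' G : Γ,
        dist o (z • o) ≤ dist o (z' • o) → dist o (z' • o) ≤ dist o (z • o) + dist o (h • o) / 3 →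
        dist o ((z * (m i)⁻¹) • o) + dist o (m i • o) + dist o (h • o) +
          dist o (((z * h)⁻¹ * G) • o) ≤ dist o (G • o) + E →
        dist o ((z' * (m i)⁻¹) • o) + dist o (m i • o) + dist o (h • o) +
          dist o (((z' * h)⁻¹ * G) • o) ≤ dist o (G • o) + E →
        dist o (z' • o) ≤ dist o (z • o) + W

/-- GEO: a length function with all properties on an acylindrically hyperbolic group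
(from FEL, EXTF, SEPM, CNT, PERN). -/
def SpecGEO : Prop :=
  ∀ (Γ : Type) [Group Γ], AcylHyp Γ →
    ∃ (ℓ : Γ → ℝ) (δ C : ℝ) (F : Finset Γ) (M : ℕ), Len ℓ δ C F M

/-! ### Coding -/

/-- SUM: the code lemma. -/
def SpecSUM : Prop :=
  ∀ (Γ β : Type) [Group Γ] (T : Γ → ℝ), (∀ g, 0 < T g) → Summable T →
    ∀ (B : Finset β) (w : β → ℝ) (Ω : β → Γ → Γ) (M : ℕ),
      (∀ b ∈ B, ∀ G, w b * T G ≤ T (Ω b G)) →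
      (∀ g, {p : β × Γ | p.1 ∈ B ∧ Ω p.1 p.2 = g}.encard ≤ (M : ℕ∞)) →
      ∑ b ∈ B, w b ≤ M

/-- UP: the mass of a shell is bounded. -/
def SpecUP : Prop :=
  ∀ (Γ : Type) [Group Γ] (ℓ : Γ → ℝ) (δ C : ℝ) (F : Finset Γ) (M : ℕ), Len ℓ δ C F M →
    ∀ (A : Finset Γ) (Tn : ℕ → Γ → ℝ) (T : Γ → ℝ) (c : ℝ), Crit A Tn T c →
    ∀ w : ℝ, ∃ K : ℝ, 0 < K ∧ ∀ (t : ℝ) (D : Finset Γ), (∀ a ∈ D, t ≤ ℓ a ∧ ℓ a ≤ t + w) →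
      ∑ a ∈ D, T a ≤ K

/-- LOW: the mass of a shell is bounded from below. -/
def SpecLOW : Prop :=
  ∀ (Γ : Type) [Group Γ] (ℓ : Γ → ℝ) (δ C : ℝ) (F : Finset Γ) (M : ℕ), Len ℓ δ C F M →
    ∀ (A : Finset Γ) (Tn : ℕ → Γ → ℝ) (T : Γ → ℝ) (c : ℝ), Crit A Tn T c →
    ∃ W c' : ℝ, 0 < W ∧ 0 < c' ∧ ∀ r : ℝ, 0 ≤ r →
      ∃ D : Finset Γ, (∀ a ∈ D, r ≤ ℓ a ∧ ℓ a < r + W) ∧ c' ≤ ∑ a ∈ D, T a

/-- PAS: the mass of the elements of a shell passing near `h`. -/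
def SpecPAS : Prop :=
  ∀ (Γ : Type) [Group Γ] (ℓ : Γ → ℝ) (δ C : ℝ) (F : Finset Γ) (M : ℕ), Len ℓ δ C F M →
    ∀ (A : Finset Γ) (Tn : ℕ → Γ → ℝ) (T : Γ → ℝ) (c : ℝ), Crit A Tn T c →
    ∀ e w : ℝ, 0 ≤ e → ∃ K k : ℝ, 0 < K ∧ 0 < k ∧ ∀ h : Γ, k ≤ ℓ h →
      ∀ (t : ℝ) (D : Finset Γ),
        (∀ a ∈ D, t ≤ ℓ a ∧ ℓ a ≤ t + w ∧ ℓ h + ℓ (h⁻¹ * a) ≤ ℓ a + e) →
        ∑ a ∈ D, T a ≤ K / ℓ h

/-- GAP: the mass of the elements of a shell without an orbit point in the window `[k, k + v]`. -/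
def SpecGAP : Prop :=
  ∀ (Γ : Type) [Group Γ] (ℓ : Γ → ℝ) (δ C : ℝ) (F : Finset Γ) (M : ℕ), Len ℓ δ C F M →
    ∀ (A : Finset Γ) (Tn : ℕ → Γ → ℝ) (T : Γ → ℝ) (c : ℝ), Crit A Tn T c →
    ∀ w k ε : ℝ, 0 < ε → ∃ v L : ℝ, 0 < v ∧ ∀ t : ℝ, L ≤ t → ∀ D : Finset Γ,
      (∀ a ∈ D, t ≤ ℓ a ∧ ℓ a ≤ t + w ∧
        ∀ h, k ≤ ℓ h → ℓ h ≤ k + v → ℓ a + (4 * C + 4 * δ) < ℓ h + ℓ (h⁻¹ * a)) →
      ∑ a ∈ D, T a ≤ ε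

/-- LT1: `T` is not identically one. -/
def SpecLT1 : Prop :=
  ∀ (Γ : Type) [Group Γ] (ℓ : Γ → ℝ) (δ C : ℝ) (F : Finset Γ) (M : ℕ), Len ℓ δ C F M →
    ∀ (A : Finset Γ) (Tn : ℕ → Γ → ℝ) (T : Γ → ℝ) (c : ℝ), Crit A Tn T c → ∃ g, T g < 1

/-- SCH: Schur test. -/
def SpecSCH : Prop :=
  ∀ (V : Type) (q : ℝ), 1 < q → ∀ K : V → V → ℝ, (∀ x y, 0 ≤ K x y) → ∀ a b : ℝ,
    (∀ (x : V) (W : Finset V), ∑ y ∈ W, K x y ≤ a) →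
    (∀ (y : V) (U : Finset V), ∑ x ∈ U, K x y ≤ b) → OB q K (a ^ (q - 1) * b)

/-- OSUM: sums of operators. -/
def SpecOSUM : Prop :=
  ∀ (V ι : Type) (q : ℝ), 1 < q → ∀ (I : Finset ι) (K : ι → V → V → ℝ) (B : ι → ℝ),
    (∀ i ∈ I, ∀ x y, 0 ≤ K i x y) → (∀ i ∈ I, OB q (K i) (B i)) →
    OB q (fun x y => ∑ i ∈ I, K i x y) ((I.card : ℝ) ^ (q - 1) * ∑ i ∈ I, B i)

/-- SHE: the restriction of `T` to a far shell has small norm. -/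
def SpecSHE : Prop :=
  ∀ (Γ : Type) [Group Γ] (ℓ : Γ → ℝ) (δ C : ℝ) (F : Finset Γ) (M : ℕ), Len ℓ δ C F M →
    ∀ (A : Finset Γ) (Tn : ℕ → Γ → ℝ) (T : Γ → ℝ) (c : ℝ), Crit A Tn T c →
    ∀ q w ε : ℝ, 1 < q → 0 < ε → ∃ L : ℝ, ∀ t : ℝ, L ≤ t →
      OB q (res T {g | t ≤ ℓ g ∧ ℓ g ≤ t + w}) ε

/-- COD: a finite set with small boundary kernel. -/
def SpecCOD : Prop :=
  ∀ (Γ : Type) [Group Γ] (ℓ : Γ → ℝ) (δ C : ℝ) (F : Finset Γ) (M : ℕ), Len ℓ δ C F M →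
    ∀ (A : Finset Γ) (Tn : ℕ → Γ → ℝ) (T : Γ → ℝ) (c : ℝ), Crit A Tn T c →
    ∀ q ε : ℝ, 1 < q → 0 < ε → ∃ S : Finset Γ, (1 : Γ) ∈ S ∧
      OB q (fun x y => kap A S T (x⁻¹ * y)) ε

/-! ### From a family of two point functions to `Crit`, and back -/

/-- SUBC: `phi < 1` implies summability. -/
def SpecSUBC : Prop :=
  ∀ (Γ : Type) [Group Γ] (A : Finset Γ) (t : ℝ → ℝ) (τ : ℝ → Finset Γ → Γ → Γ → ℝ),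
    Fam A t τ → ∀ p ∈ Set.Icc (0 : ℝ) 1, ∀ S : Finset Γ, (1 : Γ) ∈ S → phi A t τ p S < 1 →
    ∃ B : ℝ, ∀ (Λ : Finset Γ) (x : Γ), ∑ z ∈ Λ, τ p Λ x z ≤ B

/-- CRI: the critical parameter of a family; `Crit` holds there. -/
def SpecCRI : Prop :=
  ∀ (Γ : Type) [Group Γ] [Infinite Γ] (A : Finset Γ) (t : ℝ → ℝ)
    (τ : ℝ → Finset Γ → Γ → Γ → ℝ), Fam A t τ →
    ∃ pc : ℝ, 0 < pc ∧ pc ≤ 1 ∧
      (∀ p, 0 ≤ p → p < pc → ∃ S : Finset Γ, (1 : Γ) ∈ S ∧ phi A t τ p S < 1) ∧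
      (∀ p, pc ≤ p → p ≤ 1 → ∀ S : Finset Γ, (1 : Γ) ∈ S → 1 ≤ phi A t τ p S) ∧
      ∃ (Tn : ℕ → Γ → ℝ) (T : Γ → ℝ), Crit A Tn T 1 ∧
        (∀ g, IsLUB (Set.range fun Λ : Finset Γ => τ pc Λ 1 g) (T g)) ∧
        (pc = 1 → ∀ g, T g = 1)

/-- ITE: from a small kernel at `pc` to boundedness on `ℓ^q` for `p < pc + ε`. -/
def SpecITE : Prop :=
  ∀ (Γ : Type) [Group Γ] (A : Finset Γ) (t : ℝ → ℝ) (τ : ℝ → Finset Γ → Γ → Γ → ℝ),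
    Fam A t τ → ∀ (pc : ℝ) (T : Γ → ℝ), 0 < pc → pc < 1 →
    (∀ g, IsLUB (Set.range fun Λ : Finset Γ => τ pc Λ 1 g) (T g)) →
    ∀ q : ℝ, 1 < q →
    (∀ ε : ℝ, 0 < ε → ∃ S : Finset Γ, (1 : Γ) ∈ S ∧
      OB q (fun x y => kap A S T (x⁻¹ * y)) ε) →
    ∃ ε B : ℝ, 0 < ε ∧ pc + ε ≤ 1 ∧ ∀ p, 0 ≤ p → p ≤ pc + ε → ∀ Λ : Finset Γ, OB q (τ p Λ) B

/-- FAM: the main theorem on families (from GEO, COD, LT1, CRI, ITE). -/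
def SpecFAM : Prop :=
  ∀ (Γ : Type) [Group Γ] (A : Finset Γ) (t : ℝ → ℝ) (τ : ℝ → Finset Γ → Γ → Γ → ℝ),
    AcylHyp Γ → Fam A t τ →
    ∃ pc : ℝ, 0 < pc ∧ pc < 1 ∧
      (∀ p, 0 ≤ p → p < pc → ∃ S : Finset Γ, (1 : Γ) ∈ S ∧ phi A t τ p S < 1) ∧
      (∀ p, pc ≤ p → p ≤ 1 → ∀ S : Finset Γ, (1 : Γ) ∈ S → 1 ≤ phi A t τ p S) ∧
      ∀ q : ℝ, 1 < q → ∃ ε B : ℝ, 0 < ε ∧ pc + ε ≤ 1 ∧
        ∀ p, 0 ≤ p → p ≤ pc + ε → ∀ Λ : Finset Γ, OB q (τ p Λ) B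

end AHP
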